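import Mathlib

/-!
Link diagrams all crossing balls of which are filled with positive slopes except one, which is
filled with a negative slope.
-/

set_option autoImplicit false

namespace Pool.Agent.Helper42.Th

/-- A connected graph on an oriented surface, given by its set `E` of darts (oriented edges):
`rot d` is the next dart at the vertex where the dart `d` starts, and `flip d` is the dart `d`
with the opposite direction.  The vertices are the orbits of `rot`, the edges are the orbits of
`flip`, the faces are the orbits of `flip ∘ rot`.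

A connected plane graph describes an alternating link diagram: its vertices are the white
regions, its edges are the crossings and its faces are the black regions. -/
structure CMap (E : Type) where
  rot : Equiv.Perm E
  flip : Equiv.Perm E
  flip_flip : ∀ d, flip (flip d) = d
  flip_ne : ∀ d, flip d ≠ d
  conn : ∀ W : Set E, W.Nonempty → (∀ d ∈ W, rot d ∈ W ∧ flip d ∈ W) → W = Set.univ

/-- The dual graph: the vertices and the faces are exchanged. -/
def CMap.dual {E : Type} (Γ : CMap E) : CMap E where
  rot := Γ.rot.trans Γ.flip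
  flip := Γ.flip
  flip_flip := Γ.flip_flip
  flip_ne := Γ.flip_ne
  conn W hne hW := Γ.conn W hne fun d hd => by
    obtain ⟨h1, h2⟩ := hW d hd
    refine ⟨?_, h2⟩
    have h3 := (hW _ h1).2
    rw [Equiv.trans_apply, Γ.flip_flip] at h3
    exact h3

variable {E : Type} {G : Type*} [Group G]

/-- A label in `G` for every vertex (`x`) and for every face (`y`) of the graph, one vertex and
one face being labelled `1`, such that for every edge the element `D d` given by the two vertices
commutes with the element `M d` given by the two faces.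

For the universal labelling of a connected plane graph, `G` is the fundamental group of the
double cover of the complement of the crossing balls of the diagram, branched along the strands,
and `M d`, `D d` are the two peripheral elements at the crossing of `d`. -/
structure Lab (G : Type*) [Group G] (Γ : CMap E) where
  x : E → G
  y : E → G
  x_rot : ∀ d, x (Γ.rot d) = x d
  y_rot : ∀ d, y (Γ.flip (Γ.rot d)) = y d
  x_one : ∃ d, x d = 1
  y_one : ∃ d, y d = 1
  comm : ∀ d, (y (Γ.flip d))⁻¹ * y d * ((x (Γ.flip d))⁻¹ * x d) =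
    (x (Γ.flip d))⁻¹ * x d * ((y (Γ.flip d))⁻¹ * y d)

namespace Lab

variable {Γ : CMap E} (L : Lab G Γ)

/-- The peripheral element of the crossing of `d` which is given by the two vertices. -/
def D (d : E) : G := (L.x (Γ.flip d))⁻¹ * L.x d

/-- The peripheral element of the crossing of `d` which is given by the two faces. -/
def M (d : E) : G := (L.y (Γ.flip d))⁻¹ * L.y d

/-- All the labels. -/
def elts : Set G := Set.range L.x ∪ Set.range L.y

end Lab

/-- `Fill s k m a S`: the elements of the set `S` satisfy the relations of the fundamental group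
of a manifold which fills a torus with the peripheral elements `m`, `a` and the slopes of which
are at least `k`, and larger than `k` if `s` holds. -/
inductive Fill {G : Type*} [Group G] : Bool → ℕ → G → G → Set G → Prop
  /-- A solid torus of slope `c / d`. -/
  | solid (s : Bool) (k : ℕ) (m a : G) (d c : ℕ) (hd : 0 < d) (hk : k * d ≤ c)
      (hs : s = true → k * d ≠ c) (h : m ^ d = a ^ c) : Fill s k m a ∅
  /-- The double cover of the complement of the crossing balls of a diagram, all of which but
  the ball of `δ` (neither a loop nor a bridge) are filled with positive slopes; the slopes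
  `P₁ / P₂` and `Q₁ / Q₂` are larger than `k`. -/
  | glue (s : Bool) (k : ℕ) (m a : G) {E : Type} [Finite E] (Γ : CMap E) (L : Lab G Γ) (δ : E)
      (hl : ∀ i : ℕ, (Γ.rot ^ i) δ ≠ Γ.flip δ) (hb : ∀ i : ℕ, (Γ.dual.rot ^ i) δ ≠ Γ.flip δ)
      (P : Set E) (F : E → Set G) (hP : ∀ d, d ≠ δ → d ≠ Γ.flip δ → d ∈ P ∨ Γ.flip d ∈ P)
      (hF : ∀ d ∈ P, Fill true 0 (L.M d) (L.D d) (F d))
      (P₁ Q₁ P₂ Q₂ : ℕ) (hP₂ : 0 < P₂) (hQ₂ : 0 < Q₂) (hdet : P₁ * Q₂ ≠ P₂ * Q₁)
      (h1 : k * P₂ < P₁) (h2 : k * Q₂ < Q₁)
      (hm : m = L.M δ ^ P₁ * (L.D δ)⁻¹ ^ Q₁) (ha : a = L.M δ ^ P₂ * (L.D δ)⁻¹ ^ Q₂) :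
      Fill s k m a (L.elts ∪ ⋃ d ∈ P, F d)

namespace Lab

variable {Γ : CMap E} (L : Lab G Γ)

/-- The slope of the filling of the crossing ball of `d` is at least `1 / ℓ`.  For a rational
tangle `M d ^ q = D d ^ p` this means `q ≤ ℓ * p`. -/
def Within (d : E) (ℓ : ℕ) : Prop := ∃ S, Fill false 0 (L.M d ^ ℓ * (L.D d)⁻¹) (L.D d) S

/-- `Walk δ d e n`: there is a walk of length `n` from the vertex of the dart `d` to the vertex
of the dart `e`, which does not use the edge of `δ`; passing an edge the slope of which is at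
least `1 / ℓ` counts `ℓ`. -/
inductive Walk (δ : E) : E → E → ℕ → Prop
  | refl (d : E) : Walk δ d d 0
  | rot (d e : E) (n : ℕ) (h : Walk δ (Γ.rot d) e n) : Walk δ d e n
  | pass (d e : E) (n ℓ : ℕ) (h1 : d ≠ δ) (h2 : d ≠ Γ.flip δ) (hℓ : L.Within d ℓ)
      (h : Walk δ (Γ.flip d) e n) : Walk δ d e (n + ℓ)

/-- There is a walk of length at most `N` from the vertex where `δ` starts to the vertex where it
ends, which does not use the edge of `δ` and starts with the dart `rot ^ i δ`. -/
def OnePath (δ : E) (N i : ℕ) : Prop :=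
  0 < i ∧ (∀ m, 0 < m → m ≤ i → (Γ.rot ^ m) δ ≠ δ) ∧ (Γ.rot ^ i) δ ≠ Γ.flip δ ∧
    ∃ ℓ n : ℕ, 0 < ℓ ∧ ℓ + n ≤ N ∧ L.Within ((Γ.rot ^ i) δ) ℓ ∧
      L.Walk δ (Γ.flip ((Γ.rot ^ i) δ)) (Γ.flip δ) n

/-- There is a walk of length at most `N` with at least two edges, the first dart of which is `d`
and the last dart of which is `e`, and which does not use the edge of `δ`. -/
def Path (δ d e : E) (N : ℕ) : Prop :=
  d ≠ δ ∧ d ≠ Γ.flip δ ∧ e ≠ δ ∧ e ≠ Γ.flip δ ∧
    ∃ ℓ n ℓ' : ℕ, 0 < ℓ ∧ 0 < ℓ' ∧ ℓ + n + ℓ' ≤ N ∧ L.Within d ℓ ∧ L.Within e ℓ' ∧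
      L.Walk δ (Γ.flip d) e n

/-- There are two walks of length at most `N` from the vertex where `δ` starts to the vertex
where it ends, with the different first darts `rot ^ i δ` and `rot ^ j δ` and with different last
darts, such that the first walk is on the same side of the second one at both ends: in the order
of rotation, the first walk starts between `δ` and the second walk, and it ends between the
second walk and `δ`. -/
def TwoPaths (δ : E) (N i j : ℕ) : Prop :=
  0 < i ∧ i < j ∧ (∀ m, 0 < m → m ≤ j → (Γ.rot ^ m) δ ≠ δ) ∧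
    ∃ i' j' : ℕ, 0 < j' ∧ j' < i' ∧
      (∀ m, 0 < m → m ≤ i' → (Γ.rot ^ m) (Γ.flip δ) ≠ Γ.flip δ) ∧
      L.Path δ ((Γ.rot ^ i) δ) (Γ.flip ((Γ.rot ^ i') (Γ.flip δ))) N ∧
      L.Path δ ((Γ.rot ^ j) δ) (Γ.flip ((Γ.rot ^ j') (Γ.flip δ))) N

/-- The ends of `δ` are joined by one walk of length at most `k`, or by two walks of length at
most `k + 1` as in `TwoPaths`.  The set `I` gives the first darts. -/
def Short (δ : E) (k : ℕ) (I : Set ℕ) : Prop :=
  (∃ i, I = {i} ∧ L.OnePath δ k i) ∨ ∃ i j, I = {i, j} ∧ L.TwoPaths δ (k + 1) i j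

end Lab

/-- There is a walk from the vertex of the dart `d` to the vertex of the dart `e` which passes
edges only from vertices different from the vertex of `δ`. -/
inductive CMap.Away (Γ : CMap E) (δ : E) : E → E → Prop
  | refl (d : E) : Γ.Away δ d d
  | rot (d e : E) (h : Γ.Away δ (Γ.rot d) e) : Γ.Away δ d e
  | pass (d e : E) (hd : ∀ m : ℕ, (Γ.rot ^ m) δ ≠ d) (h : Γ.Away δ (Γ.flip d) e) :
      Γ.Away δ d e

/-- There is another edge at the vertex where `δ` starts, from which the vertex where `δ` ends
can be reached without returning to the first vertex. -/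
def CMap.Third (Γ : CMap E) (δ : E) (I : Set ℕ) : Prop :=
  ∃ m, 0 < m ∧ m ∉ I ∧ (∀ l, 0 < l → l ≤ m → (Γ.rot ^ l) δ ≠ δ) ∧
    Γ.Away δ (Γ.flip ((Γ.rot ^ m) δ)) (Γ.flip δ)

end Pool.Agent.Helper42.Th
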