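import Mathlib
import Pool.Agent.Helper42.Th.Defs

/-!
The maximum principle for labelled graphs, at one point of a linear order.
-/

set_option autoImplicit false

namespace Pool.Agent.Helper42.Th

variable {E : Type}

/-- Values at the vertices (`f`) and at the faces (`g`), such that all edges except the edge
of `δ` are positive. -/
structure Harm (Γ : CMap E) (δ : E) {Ω₁ Ω₂ : Type*} [LinearOrder Ω₁] [LinearOrder Ω₂]
    (f : E → Ω₁) (g : E → Ω₂) : Prop where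
  f_rot : ∀ d, f (Γ.rot d) = f d
  g_rot : ∀ d, g (Γ.flip (Γ.rot d)) = g d
  pos : ∀ d, d ≠ δ → d ≠ Γ.flip δ → f (Γ.flip d) ≤ f d → g (Γ.flip d) ≤ g d
  str : ∀ d, d ≠ δ → d ≠ Γ.flip δ → g (Γ.flip d) = g d → f (Γ.flip d) = f d

namespace Harm

variable {Γ : CMap E} {δ : E} {Ω₁ Ω₂ : Type*} [LinearOrder Ω₁] [LinearOrder Ω₂]
  {f : E → Ω₁} {g : E → Ω₂}

lemma ne_flip {d : E} (h1 : d ≠ δ) (h2 : d ≠ Γ.flip δ) : Γ.flip d ≠ δ ∧ Γ.flip d ≠ Γ.flip δ := by
  constructor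
  · intro h
    apply h2
    rw [← h, Γ.flip_flip]
  · intro h
    exact h1 (Γ.flip.injective h)

lemma swap (h : Harm Γ δ f g) : Harm Γ (Γ.flip δ) f g := by
  refine ⟨h.f_rot, h.g_rot, fun d h1 h2 => h.pos d ?_ h1, fun d h1 h2 => h.str d ?_ h1⟩
  · rwa [Γ.flip_flip] at h2
  · rwa [Γ.flip_flip] at h2

lemma op (h : Harm Γ δ f g) :
    Harm Γ δ (fun d => OrderDual.toDual (f d)) (fun d => OrderDual.toDual (g d)) := by
  refine ⟨fun d => congrArg _ (h.f_rot d), fun d => congrArg _ (h.g_rot d), ?_, ?_⟩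
  · intro d h1 h2 h3
    obtain ⟨h4, h5⟩ := ne_flip h1 h2
    have h6 := h.pos _ h4 h5
    rw [Γ.flip_flip] at h6
    exact h6 h3
  · intro d h1 h2 h3
    exact h.str d h1 h2 h3

lemma dual (h : Harm Γ δ f g) : Harm Γ.dual δ g f := by
  refine ⟨h.g_rot, ?_, ?_, ?_⟩
  · intro d
    change f (Γ.flip (Γ.flip (Γ.rot d))) = f d
    rw [Γ.flip_flip, h.f_rot]
  · intro d h1 h2 h3
    change f (Γ.flip d) ≤ f d
    change g (Γ.flip d) ≤ g d at h3
    by_contra hn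
    push Not at hn
    obtain ⟨h4, h5⟩ := ne_flip (Γ := Γ) h1 h2
    have h6 := h.pos _ h4 h5
    rw [Γ.flip_flip] at h6
    have h7 := h.str d h1 h2 (le_antisymm h3 (h6 hn.le))
    exact absurd h7 hn.ne'
  · intro d h1 h2 h3
    change g (Γ.flip d) = g d
    change f (Γ.flip d) = f d at h3
    obtain ⟨h4, h5⟩ := ne_flip (Γ := Γ) h1 h2
    have h6 := h.pos _ h4 h5
    rw [Γ.flip_flip] at h6
    exact le_antisymm (h.pos d h1 h2 h3.le) (h6 h3.ge)

variable [Finite E]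

/-- A function which does not decrease along the rotation is constant along it. -/
lemma chain_const {Ω : Type*} [LinearOrder Ω] (Γ : CMap E) (g : E → Ω) (W : Set E)
    (hW : ∀ d ∈ W, Γ.rot d ∈ W) (hle : ∀ d ∈ W, g d ≤ g (Γ.rot d)) :
    ∀ d ∈ W, g (Γ.rot d) = g d := by
  have key : ∀ n : ℕ, ∀ d ∈ W, g d ≤ g ((Γ.rot ^ n) d) := by
    intro n
    induction n with
    | zero => intro d _; simp
    | succ n ih =>
      intro d hd
      rw [pow_succ, Equiv.Perm.mul_apply]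
      exact (hle d hd).trans (ih _ (hW d hd))
  intro d hd
  refine le_antisymm ?_ (hle d hd)
  have h1 : 0 < orderOf Γ.rot := orderOf_pos _
  obtain ⟨N, hN⟩ : ∃ N, orderOf Γ.rot = N + 1 := ⟨orderOf Γ.rot - 1, by omega⟩
  have h2 := key N _ (hW d hd)
  have h3 : (Γ.rot ^ N) (Γ.rot d) = d := by
    rw [← Equiv.Perm.mul_apply, ← pow_succ, ← hN, pow_orderOf_eq_one]
    rfl
  rwa [h3] at h2

/-- The darts of a vertex at which `f` is maximal, the edges of which are positive. -/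
lemma spread (h : Harm Γ δ f g) (W : Set E) (hW : ∀ d, Γ.rot d ∈ W ↔ d ∈ W)
    (hns : ∀ d ∈ W, d ≠ δ ∧ d ≠ Γ.flip δ) (hmax : ∀ d ∈ W, f (Γ.flip d) ≤ f d) :
    ∀ d ∈ W, f (Γ.flip d) = f d := by
  have hle : ∀ d ∈ W, g d ≤ g (Γ.rot d) := by
    intro d hd
    have h1 := (hW d).mpr hd
    obtain ⟨h2, h3⟩ := hns _ h1
    have h4 := h.pos _ h2 h3 (hmax _ h1)
    rwa [h.g_rot] at h4
  have hconst := chain_const Γ g W (fun d hd => (hW d).mpr hd) hle
  intro d hd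
  obtain ⟨e, rfl⟩ := Γ.rot.surjective d
  have he := (hW e).mp hd
  obtain ⟨h2, h3⟩ := hns _ hd
  apply h.str _ h2 h3
  rw [h.g_rot, hconst e he]

lemma max (h : Harm Γ δ f g) (h0 : f (Γ.flip δ) ≤ f δ) : ∀ d, f d ≤ f δ := by
  by_contra hcon
  push Not at hcon
  obtain ⟨d₁, hd₁⟩ := hcon
  have : Nonempty E := ⟨δ⟩
  obtain ⟨m, hm⟩ := Finite.exists_max f
  have hδ : f δ < f m := hd₁.trans_le (hm d₁)
  have hns : ∀ d ∈ {d | f d = f m}, d ≠ δ ∧ d ≠ Γ.flip δ := by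
    intro d hd
    change f d = f m at hd
    constructor
    · rintro rfl
      exact absurd hd hδ.ne
    · rintro rfl
      exact absurd hd (h0.trans_lt hδ).ne
  have hW : ∀ d, Γ.rot d ∈ {d | f d = f m} ↔ d ∈ {d | f d = f m} := by
    intro d
    change f (Γ.rot d) = f m ↔ f d = f m
    rw [h.f_rot]
  have hsp := h.spread _ hW hns (fun d hd => by
    rw [show f d = f m from hd]
    exact hm _)
  have huniv := Γ.conn {d | f d = f m} ⟨m, rfl⟩ fun d hd =>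
    ⟨(hW d).mpr hd, (hsp d hd).trans hd⟩
  have : δ ∈ {d | f d = f m} := by
    rw [huniv]
    trivial
  exact absurd this hδ.ne

/-- The maximum principle. -/
lemma ext (h : Harm Γ δ f g) (h0 : f (Γ.flip δ) ≤ f δ) (h1 : g δ ≤ g (Γ.flip δ)) (d : E) :
    f (Γ.flip δ) ≤ f d ∧ f d ≤ f δ ∧ g δ ≤ g d ∧ g d ≤ g (Γ.flip δ) := by
  refine ⟨?_, h.max h0 d, ?_, ?_⟩
  · have := h.op.swap.max (by
      rw [Γ.flip_flip]
      exact h0) d
    exact this
  · have := h.dual.op.max h1 d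
    exact this
  · have h3 := h.dual.swap.max
    change g (Γ.flip (Γ.flip δ)) ≤ g (Γ.flip δ) → ∀ d, g d ≤ g (Γ.flip δ) at h3
    rw [Γ.flip_flip] at h3
    exact h3 h1 d

end Harm

end Pool.Agent.Helper42.Th
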