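import Mathlib
import Pool.Agent.Helper42.Th.Max
import Pool.Agent.Helper71.TreeProof

/-!
Labelled graphs with one negative edge acting on a linear order: two short paths between the
ends of the negative edge bound its slope from below.
-/

set_option autoImplicit false

namespace Pool.Agent.Helper42.Th

open Pool.Agent.Helper31.OrderAct
open Pool.Agent.Helper71.Rot

variable {E : Type} {Ω : Type*} [LinearOrder Ω]

/-- The labels `X`, `Y` of a graph, all edges of which but the edge of `δ` are positive, and the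
slope of the edge of `δ` is negative and at most `1 / k` in absolute value. -/
structure Sys (Γ : CMap E) (δ : E) (X Y : E → Ω ≃o Ω) (a b : Ω ≃o Ω) (k : ℕ) : Prop where
  harm : ∀ z, Harm Γ δ (fun d => X d z) (fun d => Y d z)
  ha : ∀ z, X (Γ.flip δ) (a z) = X δ z
  hb : ∀ z, Y δ (b z) = Y (Γ.flip δ) z
  comm : ∀ z, a (b z) = b (a z)
  kpos : 0 < k
  up : ∀ z, z ≤ b z → (b ^ k) z ≤ a z
  dn : ∀ z, b z ≤ z → a z ≤ (b ^ k) z

namespace Sys

variable {Γ : CMap E} {δ : E} {X Y : E → Ω ≃o Ω} {a b : Ω ≃o Ω} {k : ℕ}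

/-- The second peripheral element on the order. -/
def N (Γ : CMap E) (Y : E → Ω ≃o Ω) (d : E) : Ω ≃o Ω := (Y (Γ.flip d))⁻¹ * Y d

lemma Y_N (d : E) (z : Ω) : Y (Γ.flip d) (N Γ Y d z) = Y d z := by
  rw [N, RelIso.mul_apply, RelIso.apply_inv_self]

lemma N_le {d : E} {z w : Ω} : N Γ Y d z ≤ w ↔ Y d z ≤ Y (Γ.flip d) w := by
  rw [← Y_N (Γ := Γ) (Y := Y) d z]
  exact (Y (Γ.flip d)).le_iff_le.symm

lemma le_N {d : E} {z w : Ω} : w ≤ N Γ Y d z ↔ Y (Γ.flip d) w ≤ Y d z := by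
  rw [← Y_N (Γ := Γ) (Y := Y) d z]
  exact (Y (Γ.flip d)).le_iff_le.symm

variable (S : Sys Γ δ X Y a b k)
include S

lemma b_ge {z : Ω} (hz : z ≤ a z) : z ≤ b z := by
  by_contra hn
  push Not at hn
  have h1 := S.dn z hn.le
  have h2 : (b ^ k) z < z := by
    obtain ⟨n, rfl⟩ : ∃ n, k = n + 1 := ⟨k - 1, by have := S.kpos; omega⟩
    rw [pow_succ', RelIso.mul_apply]
    exact (b.monotone (pow_le hn.le n)).trans_lt hn
  exact absurd (hz.trans h1) (not_le.mpr h2)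

lemma b_le_a {z : Ω} (hz : z ≤ a z) : b z ≤ a z := by
  have h0 := S.b_ge hz
  refine le_trans ?_ (S.up z h0)
  obtain ⟨n, rfl⟩ : ∃ n, k = n + 1 := ⟨k - 1, by have := S.kpos; omega⟩
  rw [pow_succ', RelIso.mul_apply]
  exact b.monotone (pow_ge h0 n)

/-- The region where `a` moves up is closed under `b`. -/
lemma reg_b {z : Ω} (hz : z ≤ a z) : b z ≤ a (b z) := by
  rw [S.comm]
  exact b.monotone hz

lemma reg_bpow {z : Ω} (hz : z ≤ a z) (n : ℕ) : (b ^ n) z ≤ a ((b ^ n) z) := by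
  induction n with
  | zero => simpa using hz
  | succ n ih =>
    rw [pow_succ', RelIso.mul_apply]
    exact S.reg_b ih

lemma reg_of {z w : Ω} (hz : z ≤ a z) (h1 : z ≤ w) (h2 : w ≤ b z) : w ≤ a w :=
  (h2.trans (S.b_le_a hz)).trans (a.monotone h1)

lemma bpow_mono {z : Ω} (hz : z ≤ a z) {m n : ℕ} (h : m ≤ n) : (b ^ m) z ≤ (b ^ n) z := by
  obtain ⟨i, rfl⟩ := Nat.exists_eq_add_of_le h
  rw [add_comm, pow_add, RelIso.mul_apply]
  exact pow_ge (S.b_ge (S.reg_bpow hz m)) i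

variable [Finite E]

lemma ext {z : Ω} (hz : z ≤ a z) (d : E) :
    X (Γ.flip δ) z ≤ X d z ∧ X d z ≤ X δ z ∧ Y δ z ≤ Y d z ∧ Y d z ≤ Y (Γ.flip δ) z := by
  refine (S.harm z).ext ?_ ?_ d
  · rw [← S.ha z]
    exact (X (Γ.flip δ)).monotone hz
  · rw [← S.hb z]
    exact (Y δ).monotone (S.b_ge hz)

/-- The label of a face is bounded. -/
lemma Y_top {z : Ω} (hz : z ≤ a z) (d e : E) : Y d z ≤ Y e (b z) := by
  refine (S.ext hz d).2.2.2.trans ?_
  rw [← S.hb z]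
  exact (S.ext (S.reg_b hz) e).2.2.1

lemma N_le_b {z : Ω} (hz : z ≤ a z) (d : E) : N Γ Y d z ≤ b z := N_le.mpr (S.Y_top hz d _)

lemma Npow_le {z : Ω} (hz : z ≤ a z) (d : E) (n : ℕ) : (N Γ Y d ^ n) z ≤ (b ^ n) z := by
  induction n generalizing z with
  | zero => simp
  | succ n ih =>
    rw [pow_succ, pow_succ, RelIso.mul_apply, RelIso.mul_apply]
    exact ((N Γ Y d ^ n).monotone (S.N_le_b hz d)).trans (ih (S.reg_b hz))

omit [Finite E] in
lemma X_rot (z : Ω) (e : E) (n : ℕ) : X ((Γ.rot ^ n) e) z = X e z := by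
  induction n with
  | zero => simp
  | succ n ih =>
    rw [pow_succ', Equiv.Perm.mul_apply]
    exact ((S.harm z).f_rot _).trans ih

omit [Finite E] in
lemma Y_flip (z : Ω) (e : E) (n : ℕ) :
    Y (Γ.flip ((Γ.rot ^ (n + 1)) e)) z = Y ((Γ.rot ^ n) e) z := by
  rw [pow_succ', Equiv.Perm.mul_apply]
  exact (S.harm z).g_rot _

/-- At the start of `δ`, the labels of the faces do not decrease along the rotation. -/
lemma first_mono {z : Ω} (hz : z ≤ a z) {i j : ℕ} (hij : i ≤ j)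
    (hne : ∀ m, 0 < m → m ≤ j → (Γ.rot ^ m) δ ≠ δ) :
    Y ((Γ.rot ^ i) δ) z ≤ Y ((Γ.rot ^ j) δ) z := by
  induction j with
  | zero =>
    obtain rfl : i = 0 := by omega
    exact le_refl _
  | succ j ih =>
    rcases Nat.lt_or_ge j i with h1 | h1
    · obtain rfl : i = j + 1 := by omega
      exact le_refl _
    · refine (ih h1 fun m h2 h3 => hne m h2 (by omega)).trans ?_
      rw [← S.Y_flip z δ j]
      have h4 := hne (j + 1) (by omega) le_rfl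
      by_cases h5 : (Γ.rot ^ (j + 1)) δ = Γ.flip δ
      · rw [h5, Γ.flip_flip]
        exact (S.ext hz _).2.2.1
      · apply (S.harm z).pos _ h4 h5
        rw [S.X_rot]
        exact (S.ext hz _).2.1

/-- At the end of `δ`, the labels of the faces do not increase along the rotation. -/
lemma last_mono {z : Ω} (hz : z ≤ a z) {i j : ℕ} (hij : i ≤ j)
    (hne : ∀ m, 0 < m → m ≤ j → (Γ.rot ^ m) (Γ.flip δ) ≠ Γ.flip δ) :
    Y ((Γ.rot ^ j) (Γ.flip δ)) z ≤ Y ((Γ.rot ^ i) (Γ.flip δ)) z := by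
  induction j with
  | zero =>
    obtain rfl : i = 0 := by omega
    exact le_refl _
  | succ j ih =>
    rcases Nat.lt_or_ge j i with h1 | h1
    · obtain rfl : i = j + 1 := by omega
      exact le_refl _
    · refine le_trans ?_ (ih h1 fun m h2 h3 => hne m h2 (by omega))
      rw [← S.Y_flip z (Γ.flip δ) j]
      have h4 := hne (j + 1) (by omega) le_rfl
      by_cases h5 : (Γ.rot ^ (j + 1)) (Γ.flip δ) = δ
      · rw [h5]
        exact (S.ext hz _).2.2.1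
      · obtain ⟨h6, h7⟩ := Harm.ne_flip (Γ := Γ) h5 h4
        have h8 := (S.harm z).pos _ h6 h7
        rw [Γ.flip_flip] at h8
        apply h8
        rw [S.X_rot]
        exact (S.ext hz _).1

lemma first_ge {z : Ω} (hz : z ≤ a z) {j : ℕ} (h0 : 0 < j)
    (hne : ∀ m, 0 < m → m ≤ j → (Γ.rot ^ m) δ ≠ δ) : z ≤ N Γ Y ((Γ.rot ^ j) δ) z := by
  obtain ⟨n, rfl⟩ : ∃ n, j = n + 1 := ⟨j - 1, by omega⟩
  rw [le_N, S.Y_flip]
  exact S.first_mono hz (Nat.le_succ n) hne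

lemma last_ge {z : Ω} (hz : z ≤ a z) {j : ℕ} (h0 : 0 < j)
    (hne : ∀ m, 0 < m → m ≤ j → (Γ.rot ^ m) (Γ.flip δ) ≠ Γ.flip δ) :
    z ≤ N Γ Y (Γ.flip ((Γ.rot ^ j) (Γ.flip δ))) z := by
  obtain ⟨n, rfl⟩ : ∃ n, j = n + 1 := ⟨j - 1, by omega⟩
  rw [le_N, S.Y_flip, Γ.flip_flip]
  exact S.last_mono hz (Nat.le_succ n) hne

/-- Two edges at the start of `δ`. -/
lemma first_two {z : Ω} (hz : z ≤ a z) {i j : ℕ} (h0 : 0 < i) (hij : i < j)
    (hne : ∀ m, 0 < m → m ≤ j → (Γ.rot ^ m) δ ≠ δ) :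
    N Γ Y ((Γ.rot ^ i) δ) (N Γ Y ((Γ.rot ^ j) δ) z) ≤ b z := by
  obtain ⟨n, rfl⟩ : ∃ n, j = n + 1 := ⟨j - 1, by omega⟩
  have h1 := S.first_ge hz (by omega) hne
  have h2 := S.reg_of hz h1 (S.N_le_b hz _)
  rw [N_le]
  refine (S.first_mono h2 (show i ≤ n by omega) fun m h3 h4 => hne m h3 (by omega)).trans ?_
  rw [← S.Y_flip, Y_N]
  exact S.Y_top hz _ _

/-- Two edges at the end of `δ`. -/
lemma last_two {z : Ω} (hz : z ≤ a z) {i j : ℕ} (h0 : 0 < j) (hij : j < i)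
    (hne : ∀ m, 0 < m → m ≤ i → (Γ.rot ^ m) (Γ.flip δ) ≠ Γ.flip δ) :
    N Γ Y (Γ.flip ((Γ.rot ^ i) (Γ.flip δ)))
      (N Γ Y (Γ.flip ((Γ.rot ^ j) (Γ.flip δ))) z) ≤ b z := by
  obtain ⟨n, rfl⟩ : ∃ n, i = n + 1 := ⟨i - 1, by omega⟩
  have hne' : ∀ m, 0 < m → m ≤ j → (Γ.rot ^ m) (Γ.flip δ) ≠ Γ.flip δ :=
    fun m h3 h4 => hne m h3 (by omega)
  have h1 := S.last_ge hz h0 hne'
  have h2 := S.reg_of hz h1 (S.N_le_b hz _)
  rw [N_le, S.Y_flip]
  refine (S.last_mono h2 (show j ≤ n by omega) fun m h3 h4 => hne m h3 (by omega)).trans ?_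
  have h3 := Y_N (Γ := Γ) (Y := Y) (Γ.flip ((Γ.rot ^ j) (Γ.flip δ))) z
  rw [Γ.flip_flip] at h3
  rw [h3]
  exact S.Y_top hz _ _

/-- Three edges at the start of `δ`: if the product of two of them is the largest possible, the
third one fixes a point. -/
lemma third {z : Ω} (hz : z ≤ a z) {i j m : ℕ} (h0 : 0 < i) (hij : i < j) (hm : 0 < m)
    (hmi : m ≠ i) (hmj : m ≠ j)
    (hne : ∀ l, 0 < l → l ≤ j ∨ l ≤ m → (Γ.rot ^ l) δ ≠ δ)
    (heq : N Γ Y ((Γ.rot ^ i) δ) (N Γ Y ((Γ.rot ^ j) δ) z) = b z) :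
    ∃ w, z ≤ w ∧ w ≤ b z ∧ N Γ Y ((Γ.rot ^ m) δ) w = w := by
  obtain ⟨n, rfl⟩ : ∃ n, j = n + 1 := ⟨j - 1, by omega⟩
  obtain ⟨l, rfl⟩ : ∃ l, m = l + 1 := ⟨m - 1, by omega⟩
  obtain ⟨o, rfl⟩ : ∃ o, i = o + 1 := ⟨i - 1, by omega⟩
  have hj : ∀ m, 0 < m → m ≤ n + 1 → (Γ.rot ^ m) δ ≠ δ := fun m h1 h2 => hne m h1 (Or.inl h2)
  have hl : ∀ m, 0 < m → m ≤ l + 1 → (Γ.rot ^ m) δ ≠ δ := fun m h1 h2 => hne m h1 (Or.inr h2)
  have h1 := S.first_ge hz (by omega) hj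
  have h1' := S.N_le_b hz ((Γ.rot ^ (n + 1)) δ)
  have h2 := S.reg_of hz h1 h1'
  set z1 := N Γ Y ((Γ.rot ^ (n + 1)) δ) z with hz1
  have e1 : Y ((Γ.rot ^ n) δ) z1 = Y ((Γ.rot ^ (n + 1)) δ) z := by
    rw [← S.Y_flip, Y_N]
  rcases lt_or_gt_of_ne hmi with hlt | hgt
  · -- the third edge comes before the first one
    refine ⟨b z, S.b_ge hz, le_refl _, le_antisymm ?_ (S.first_ge (S.reg_b hz) (by omega) hl)⟩
    have e2 : Y ((Γ.rot ^ o) δ) (b z) = Y ((Γ.rot ^ (o + 1)) δ) z1 := by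
      rw [← heq, ← S.Y_flip, Y_N]
    rw [N_le]
    calc Y ((Γ.rot ^ (l + 1)) δ) (b z) ≤ Y ((Γ.rot ^ o) δ) (b z) :=
          S.first_mono (S.reg_b hz) (by omega) fun m h3 h4 => hj m h3 (by omega)
      _ = Y ((Γ.rot ^ (o + 1)) δ) z1 := e2
      _ ≤ Y ((Γ.rot ^ n) δ) z1 := S.first_mono h2 (by omega) fun m h3 h4 => hj m h3 (by omega)
      _ = Y ((Γ.rot ^ (n + 1)) δ) z := e1
      _ ≤ _ := S.Y_top hz _ _
  · rcases lt_or_gt_of_ne hmj with hlt' | hgt'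
    · -- the third edge is between the two others
      refine ⟨z1, h1, h1', ?_⟩
      have h3 := S.first_ge h2 (show 0 < l + 1 by omega) hl
      have h4 : N Γ Y ((Γ.rot ^ (l + 1)) δ) z1 ≤ b z := by
        rw [N_le]
        refine (S.first_mono h2 (show l + 1 ≤ n by omega) fun m h5 h6 => hj m h5 (by omega)).trans
          ?_
        rw [e1]
        exact S.Y_top hz _ _
      set w := N Γ Y ((Γ.rot ^ (l + 1)) δ) z1 with hw
      have h5 : w ≤ a w := S.reg_of hz (h1.trans h3) h4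
      refine le_antisymm ?_ h3
      have h6 : N Γ Y ((Γ.rot ^ (o + 1)) δ) w ≤ b z := by
        rw [N_le]
        calc Y ((Γ.rot ^ (o + 1)) δ) w ≤ Y ((Γ.rot ^ l) δ) w :=
              S.first_mono h5 (by omega) fun m h3 h4 => hj m h3 (by omega)
          _ = Y ((Γ.rot ^ (l + 1)) δ) z1 := by rw [← S.Y_flip, Y_N]
          _ ≤ Y ((Γ.rot ^ n) δ) z1 := S.first_mono h2 (by omega) fun m h3 h4 => hj m h3 (by omega)
          _ = Y ((Γ.rot ^ (n + 1)) δ) z := e1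
          _ ≤ _ := S.Y_top hz _ _
      rw [← heq] at h6
      exact (N Γ Y ((Γ.rot ^ (o + 1)) δ)).le_iff_le.mp h6
    · -- the third edge comes after the two others
      refine ⟨z, le_refl _, S.b_ge hz, ?_⟩
      have h3 := S.first_ge hz (show 0 < l + 1 by omega) hl
      have h4 := S.N_le_b hz ((Γ.rot ^ (l + 1)) δ)
      set w := N Γ Y ((Γ.rot ^ (l + 1)) δ) z with hw
      have h5 : w ≤ a w := S.reg_of hz h3 h4
      have e2 : Y ((Γ.rot ^ l) δ) w = Y ((Γ.rot ^ (l + 1)) δ) z := by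
        rw [← S.Y_flip, Y_N]
      have h6 := S.first_ge h5 (show 0 < n + 1 by omega) hj
      have h7 : N Γ Y ((Γ.rot ^ (n + 1)) δ) w ≤ b z := by
        rw [N_le]
        refine (S.first_mono h5 (show n + 1 ≤ l by omega) fun m h8 h9 => hl m h8 (by omega)).trans
          ?_
        rw [e2]
        exact S.Y_top hz _ _
      set z2 := N Γ Y ((Γ.rot ^ (n + 1)) δ) w with hz2
      have h8 : z2 ≤ a z2 := S.reg_of hz (h3.trans h6) h7
      refine le_antisymm ?_ h3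
      have h9 : N Γ Y ((Γ.rot ^ (o + 1)) δ) z2 ≤ b z := by
        rw [N_le]
        calc Y ((Γ.rot ^ (o + 1)) δ) z2 ≤ Y ((Γ.rot ^ n) δ) z2 :=
              S.first_mono h8 (by omega) fun m h3 h4 => hj m h3 (by omega)
          _ = Y ((Γ.rot ^ (n + 1)) δ) w := by rw [← S.Y_flip, Y_N]
          _ ≤ Y ((Γ.rot ^ l) δ) w := S.first_mono h5 (by omega) fun m h3 h4 => hl m h3 (by omega)
          _ = Y ((Γ.rot ^ (l + 1)) δ) z := e2
          _ ≤ _ := S.Y_top hz _ _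
      rw [← heq] at h9
      have h10 := (N Γ Y ((Γ.rot ^ (o + 1)) δ)).le_iff_le.mp h9
      exact (N Γ Y ((Γ.rot ^ (n + 1)) δ)).le_iff_le.mp h10

/-- Two edges at the start of `δ`: if one of them has the largest possible value, the other one
fixes a point. -/
lemma second {z : Ω} (hz : z ≤ a z) {i m : ℕ} (h0 : 0 < i) (hm : 0 < m) (hmi : m ≠ i)
    (hne : ∀ l, 0 < l → l ≤ i ∨ l ≤ m → (Γ.rot ^ l) δ ≠ δ)
    (heq : N Γ Y ((Γ.rot ^ i) δ) z = b z) :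
    ∃ w, z ≤ w ∧ w ≤ b z ∧ N Γ Y ((Γ.rot ^ m) δ) w = w := by
  obtain ⟨l, rfl⟩ : ∃ l, m = l + 1 := ⟨m - 1, by omega⟩
  obtain ⟨o, rfl⟩ : ∃ o, i = o + 1 := ⟨i - 1, by omega⟩
  have hi : ∀ m, 0 < m → m ≤ o + 1 → (Γ.rot ^ m) δ ≠ δ := fun m h1 h2 => hne m h1 (Or.inl h2)
  have hl : ∀ m, 0 < m → m ≤ l + 1 → (Γ.rot ^ m) δ ≠ δ := fun m h1 h2 => hne m h1 (Or.inr h2)
  rcases lt_or_gt_of_ne hmi with hlt | hgt
  · refine ⟨b z, S.b_ge hz, le_refl _, le_antisymm ?_ (S.first_ge (S.reg_b hz) (by omega) hl)⟩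
    have e2 : Y ((Γ.rot ^ o) δ) (b z) = Y ((Γ.rot ^ (o + 1)) δ) z := by
      rw [← heq, ← S.Y_flip, Y_N]
    rw [N_le]
    calc Y ((Γ.rot ^ (l + 1)) δ) (b z) ≤ Y ((Γ.rot ^ o) δ) (b z) :=
          S.first_mono (S.reg_b hz) (by omega) fun m h3 h4 => hi m h3 (by omega)
      _ = Y ((Γ.rot ^ (o + 1)) δ) z := e2
      _ ≤ _ := S.Y_top hz _ _
  · refine ⟨z, le_refl _, S.b_ge hz, le_antisymm ?_ (S.first_ge hz (by omega) hl)⟩
    have h1 := S.first_two hz (show 0 < o + 1 by omega) hgt hl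
    rw [← heq] at h1
    exact (N Γ Y ((Γ.rot ^ (o + 1)) δ)).le_iff_le.mp h1

end Sys

end Pool.Agent.Helper42.Th
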