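import Mathlib
import Pool.Agent.Helper42.Th.Max
import Pool.Agent.Helper71.TreeProof

/-!
Pieces: labelled graphs all edges of which except one are filled with positive slopes.
-/

set_option autoImplicit false

namespace Pool.Agent.Helper42.Th

open Pool.Agent.Helper31.OrderAct
open Pool.Agent.Helper71.Rot
open Pool.Agent.Helper71.Tree

namespace Harm

variable {E : Type} {Γ : CMap E} {δ : E} {Ω₁ Ω₂ : Type*} [LinearOrder Ω₁] [LinearOrder Ω₂]
  {f : E → Ω₁} {g : E → Ω₂} [Finite E]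

/-- The first return. -/
lemma first_return (r : Equiv.Perm E) (d : E) :
    ∃ n : ℕ, (r ^ (n + 1)) d = d ∧ ∀ i < n, (r ^ (i + 1)) d ≠ d := by
  classical
  have h : ∃ n : ℕ, (r ^ (n + 1)) d = d := by
    have h1 : 0 < orderOf r := orderOf_pos _
    refine ⟨orderOf r - 1, ?_⟩
    rw [show orderOf r - 1 + 1 = orderOf r by omega, pow_orderOf_eq_one]
    rfl
  exact ⟨Nat.find h, Nat.find_spec h, fun i hi => Nat.find_min h hi⟩

/-- If the value at the start of `δ` is not smaller than the value at its end, the value at the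
face of `δ` is not larger than at the face of the opposite dart. -/
lemma sgn (h : Harm Γ δ f g) (hl : ∀ i : ℕ, (Γ.rot ^ i) δ ≠ Γ.flip δ)
    (h0 : f (Γ.flip δ) ≤ f δ) : g δ ≤ g (Γ.flip δ) := by
  obtain ⟨n, hn, hmin⟩ := first_return Γ.rot δ
  have hf : ∀ i : ℕ, f ((Γ.rot ^ i) δ) = f δ := by
    intro i
    induction i with
    | zero => simp
    | succ i ih => rw [pow_succ', Equiv.Perm.mul_apply, h.f_rot, ih]
  have key : ∀ i ≤ n, g δ ≤ g ((Γ.rot ^ i) δ) := by
    intro i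
    induction i with
    | zero => intro _; simp
    | succ i ih =>
      intro hi
      refine (ih (by omega)).trans ?_
      have h1 : g ((Γ.rot ^ i) δ) = g (Γ.flip ((Γ.rot ^ (i + 1)) δ)) := by
        rw [pow_succ', Equiv.Perm.mul_apply, h.g_rot]
      rw [h1]
      refine h.pos _ (hmin i (by omega)) (hl (i + 1)) ?_
      rw [hf]
      exact h.max h0 _
  have h1 := key n le_rfl
  have hn' : Γ.rot ((Γ.rot ^ n) δ) = δ := by
    rw [← Equiv.Perm.mul_apply, ← pow_succ']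
    exact hn
  have h2 : g ((Γ.rot ^ n) δ) = g (Γ.flip δ) := by
    rw [← h.g_rot ((Γ.rot ^ n) δ), hn']
  rwa [h2] at h1

/-- If the values at the two faces of `δ` are equal, the values at its ends are equal. -/
lemma strict (h : Harm Γ δ f g) (hb : ∀ i : ℕ, (Γ.dual.rot ^ i) δ ≠ Γ.flip δ)
    (h0 : g (Γ.flip δ) = g δ) : f (Γ.flip δ) = f δ := by
  obtain ⟨n, hn, hmin⟩ := first_return Γ.dual.rot δ
  have hg : ∀ d, g d = g δ := by
    intro d
    have h1 := h.dual.max h0.le d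
    have h2 := h.dual.op.max h0.ge d
    exact le_antisymm h1 h2
  have key : ∀ i ≤ n, f ((Γ.dual.rot ^ i) δ) = f δ := by
    intro i
    induction i with
    | zero => intro _; simp
    | succ i ih =>
      intro hi
      rw [pow_succ', Equiv.Perm.mul_apply, ← ih (by omega)]
      set d := (Γ.dual.rot ^ i) δ with hd
      have e1 : Γ.dual.rot d = Γ.flip (Γ.rot d) := rfl
      have e2 : (Γ.dual.rot ^ (i + 1)) δ = Γ.flip (Γ.rot d) := by
        rw [pow_succ', Equiv.Perm.mul_apply]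
        rfl
      rw [e1]
      have n1 : Γ.rot d ≠ δ := by
        intro h1
        apply hb (i + 1)
        rw [e2, h1]
      have n2 : Γ.rot d ≠ Γ.flip δ := by
        intro h1
        apply hmin i (by omega)
        rw [e2, h1, Γ.flip_flip]
      rw [h.str _ n1 n2 ((hg _).trans (hg _).symm), h.f_rot]
  have h1 := key n le_rfl
  rw [← h.f_rot, ← h1] at *
  have h2 : Γ.rot ((Γ.dual.rot ^ n) δ) = Γ.flip δ := by
    rw [pow_succ', Equiv.Perm.mul_apply] at hn
    have h3 : Γ.flip (Γ.flip (Γ.rot ((Γ.dual.rot ^ n) δ))) = Γ.flip δ := congrArg Γ.flip hn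
    rwa [Γ.flip_flip] at h3
  rw [← h2, h.f_rot, h.f_rot]

end Harm

section Lab

variable {E : Type} {Γ : CMap E} {Ω : Type*} [CompleteLinearOrder Ω] {G : Type*} [Group G]
  (L : Lab G Γ) (ρ : G →* (Ω ≃o Ω))

/-- The labels as automorphisms. -/
def lx (d : E) : Ω ≃o Ω := ρ (L.x d)

/-- The labels as automorphisms. -/
def ly (d : E) : Ω ≃o Ω := ρ (L.y d)

lemma X_D (d : E) (z : Ω) : lx L ρ (Γ.flip d) (ρ (L.D d) z) = lx L ρ d z := by
  rw [Lab.D, lx, ← RelIso.mul_apply, ← map_mul, mul_inv_cancel_left]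
  rfl

lemma Y_M (d : E) (z : Ω) : ly L ρ (Γ.flip d) (ρ (L.M d) z) = ly L ρ d z := by
  rw [Lab.M, ly, ← RelIso.mul_apply, ← map_mul, mul_inv_cancel_left]
  rfl

lemma comm_MD (d : E) : L.M d * L.D d = L.D d * L.M d := L.comm d

lemma up_D {d : E} {z : Ω} : z ≤ ρ (L.D d) z ↔ lx L ρ (Γ.flip d) z ≤ lx L ρ d z := by
  rw [← X_D L ρ d z]
  exact (lx L ρ (Γ.flip d)).le_iff_le.symm

lemma dn_D {d : E} {z : Ω} : ρ (L.D d) z ≤ z ↔ lx L ρ d z ≤ lx L ρ (Γ.flip d) z := by
  rw [← X_D L ρ d z]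
  exact (lx L ρ (Γ.flip d)).le_iff_le.symm

lemma up_M {d : E} {z : Ω} : z ≤ ρ (L.M d) z ↔ ly L ρ (Γ.flip d) z ≤ ly L ρ d z := by
  rw [← Y_M L ρ d z]
  exact (ly L ρ (Γ.flip d)).le_iff_le.symm

lemma dn_M {d : E} {z : Ω} : ρ (L.M d) z ≤ z ↔ ly L ρ d z ≤ ly L ρ (Γ.flip d) z := by
  rw [← Y_M L ρ d z]
  exact (ly L ρ (Γ.flip d)).le_iff_le.symm

variable {δ : E} {P : Set E} {F : E → Set G}

/-- The values of the labels at one point. -/
lemma harm_of_fill (hP : ∀ d, d ≠ δ → d ≠ Γ.flip δ → d ∈ P ∨ Γ.flip d ∈ P)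
    (hF : ∀ d ∈ P, FillSpec true (some 0) none (ρ (L.M d)) (ρ (L.D d)) (ρ '' F d)) (z : Ω) :
    Harm Γ δ (fun d => lx L ρ d z) (fun d => ly L ρ d z) := by
  have hrule : ∀ d ∈ P, ∀ z, (z ≤ ρ (L.D d) z → z ≤ ρ (L.M d) z) ∧
      (ρ (L.D d) z ≤ z → ρ (L.M d) z ≤ z) ∧ (ρ (L.M d) z = z → ρ (L.D d) z = z) := by
    intro d hd z
    have h1 := hF d hd
    have hcd : ρ (L.M d) * ρ (L.D d) = ρ (L.D d) * ρ (L.M d) := by
      rw [← map_mul, ← map_mul]
      exact congrArg ρ (comm_MD L d)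
    have h2 := (h1.bd hcd).lower 0 rfl
    have h3 := h1.str hcd rfl 0 rfl z
    rw [neg_zero, zpow_zero, one_mul] at h2 h3
    exact ⟨fun h => (h2.up z h).1, fun h => (h2.dn z h).1, h3⟩
  refine ⟨?_, ?_, ?_, ?_⟩
  · intro d
    change ρ (L.x (Γ.rot d)) z = ρ (L.x d) z
    rw [L.x_rot]
  · intro d
    change ρ (L.y (Γ.flip (Γ.rot d))) z = ρ (L.y d) z
    rw [L.y_rot]
  · intro d h1 h2 h3
    rcases hP d h1 h2 with hd | hd
    · exact (up_M L ρ).mp ((hrule d hd z).1 ((up_D L ρ).mpr h3))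
    · have h4 := (dn_M L ρ (d := Γ.flip d) (z := z)).mp ((hrule _ hd z).2.1 ((dn_D L ρ).mpr (by
        rw [Γ.flip_flip]
        exact h3)))
      rwa [Γ.flip_flip] at h4
  · intro d h1 h2 h3
    change ly L ρ (Γ.flip d) z = ly L ρ d z at h3
    rcases hP d h1 h2 with hd | hd
    · have h4 := (hrule d hd z).2.2 (le_antisymm ((dn_M L ρ).mpr h3.ge) ((up_M L ρ).mpr h3.le))
      rw [← X_D L ρ d z, h4]
    · have h4 := (hrule _ hd z).2.2 (le_antisymm ((dn_M L ρ).mpr (by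
        rw [Γ.flip_flip]
        exact h3.le)) ((up_M L ρ).mpr (by
        rw [Γ.flip_flip]
        exact h3.ge)))
      have h5 := X_D L ρ (Γ.flip d) z
      rw [Γ.flip_flip, h4] at h5
      exact h5.symm

variable [Finite E]

theorem lab_spec (hl : ∀ i : ℕ, (Γ.rot ^ i) δ ≠ Γ.flip δ)
    (hb : ∀ i : ℕ, (Γ.dual.rot ^ i) δ ≠ Γ.flip δ)
    (hP : ∀ d, d ≠ δ → d ≠ Γ.flip δ → d ∈ P ∨ Γ.flip d ∈ P)
    (hF : ∀ d ∈ P, FillSpec true (some 0) none (ρ (L.M d)) (ρ (L.D d)) (ρ '' F d)) :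
    PieceSpec (ρ (L.M δ)) (ρ (L.D δ)⁻¹) (ρ '' (L.elts ∪ ⋃ d ∈ P, F d)) := by
  have H := harm_of_fill L ρ hP hF
  have hc : Commute (L.M δ) (L.D δ) := comm_MD L δ
  have q_up : ∀ z, z ≤ ρ (L.D δ)⁻¹ z ↔ ρ (L.D δ) z ≤ z := by
    intro z
    constructor
    · intro h
      have h1 := (ρ (L.D δ)).monotone h
      rwa [← RelIso.mul_apply, ← map_mul, mul_inv_cancel, map_one] at h1
    · intro h
      have h1 := (ρ (L.D δ)⁻¹).monotone h
      rwa [← RelIso.mul_apply, ← map_mul, inv_mul_cancel, map_one] at h1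
  have q_dn : ∀ z, ρ (L.D δ)⁻¹ z ≤ z ↔ z ≤ ρ (L.D δ) z := by
    intro z
    constructor
    · intro h
      have h1 := (ρ (L.D δ)).monotone h
      rwa [← RelIso.mul_apply, ← map_mul, mul_inv_cancel, map_one] at h1
    · intro h
      have h1 := (ρ (L.D δ)⁻¹).monotone h
      rwa [← RelIso.mul_apply, ← map_mul, inv_mul_cancel, map_one] at h1
  have up : ∀ z, z ≤ ρ (L.M δ) z ↔ z ≤ ρ (L.D δ)⁻¹ z := by
    intro z
    rw [q_up, up_M, dn_D]
    exact ⟨(H z).dual.sgn hb, (H z).op.sgn hl⟩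
  have dn : ∀ z, ρ (L.M δ) z ≤ z ↔ ρ (L.D δ)⁻¹ z ≤ z := by
    intro z
    rw [q_dn, dn_M, up_D]
    exact ⟨(H z).dual.op.sgn hb, (H z).sgn hl⟩
  set p := ρ (L.M δ) with hp
  set q := ρ (L.D δ)⁻¹ with hq
  have gt_pow : ∀ (x : Ω ≃o Ω) (n : ℕ) (z : Ω), 0 < n → z < x z → z < (x ^ n) z := by
    intro x n z hn hz
    obtain ⟨m, rfl⟩ : ∃ m, n = m + 1 := ⟨n - 1, by omega⟩
    rw [pow_succ, RelIso.mul_apply]
    exact (pow_ge hz.le m).trans_lt ((x ^ m).lt_iff_lt.mpr hz)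
  have lt_pow : ∀ (x : Ω ≃o Ω) (n : ℕ) (z : Ω), 0 < n → x z < z → (x ^ n) z < z := by
    intro x n z hn hz
    obtain ⟨m, rfl⟩ : ∃ m, n = m + 1 := ⟨n - 1, by omega⟩
    rw [pow_succ, RelIso.mul_apply]
    exact ((x ^ m).lt_iff_lt.mpr hz).trans_le (pow_le hz.le m)
  have wup : ∀ (a b : ℕ) (z : Ω), 0 < a + b → z < p z → z < (p ^ a * q ^ b) z := by
    intro a b z hab h1
    have h2 : z < q z := by
      rw [← not_le] at h1 ⊢
      rwa [← dn]
    rw [RelIso.mul_apply]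
    rcases Nat.eq_zero_or_pos b with h3 | h3
    · rw [h3, pow_zero]
      exact gt_pow p a z (by omega) h1
    · have h4 := gt_pow q b z h3 h2
      exact (pow_ge h1.le a).trans_lt ((p ^ a).lt_iff_lt.mpr h4)
  have wdn : ∀ (a b : ℕ) (z : Ω), 0 < a + b → p z < z → (p ^ a * q ^ b) z < z := by
    intro a b z hab h1
    have h2 : q z < z := by
      rw [← not_le] at h1 ⊢
      rwa [← up]
    rw [RelIso.mul_apply]
    rcases Nat.eq_zero_or_pos b with h3 | h3
    · rw [h3, pow_zero]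
      exact lt_pow p a z (by omega) h1
    · have h4 := lt_pow q b z h3 h2
      exact ((p ^ a).lt_iff_lt.mpr h4).trans_le (pow_le h1.le a)
  have both : ∀ z, p z = z → p z = z ∧ q z = z := fun z h =>
    ⟨h, le_antisymm ((dn z).mp h.le) ((up z).mp h.ge)⟩
  refine ⟨?_, ?_, ?_, ?_⟩
  · rw [hp, hq, ← map_mul, ← map_mul]
    exact congrArg ρ hc.inv_right.eq
  · intro s h1 h2 g hg
    have e1 : lx L ρ (Γ.flip δ) s = lx L ρ δ s :=
      le_antisymm ((up_D L ρ).mp ((q_dn s).mp h2.le)) ((dn_D L ρ).mp ((q_up s).mp h2.ge))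
    have e2 : ly L ρ (Γ.flip δ) s = ly L ρ δ s :=
      le_antisymm ((up_M L ρ).mp h1.ge) ((dn_M L ρ).mp h1.le)
    have hX : ∀ d, lx L ρ d s = lx L ρ δ s := by
      intro d
      obtain ⟨h3, h4, -, -⟩ := (H s).ext e1.le e2.ge d
      exact le_antisymm h4 (e1 ▸ h3)
    have hY : ∀ d, ly L ρ d s = ly L ρ δ s := by
      intro d
      obtain ⟨-, -, h3, h4⟩ := (H s).ext e1.le e2.ge d
      exact le_antisymm (e2 ▸ h4) h3
    have hX1 : ∀ d, ρ (L.x d) s = s := by
      obtain ⟨c, hc⟩ := L.x_one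
      intro d
      have h3 : lx L ρ d s = lx L ρ c s := (hX d).trans (hX c).symm
      change ρ (L.x d) s = ρ (L.x c) s at h3
      rw [h3, hc, map_one]
      rfl
    have hY1 : ∀ d, ρ (L.y d) s = s := by
      obtain ⟨c, hc⟩ := L.y_one
      intro d
      have h3 : ly L ρ d s = ly L ρ c s := (hY d).trans (hY c).symm
      change ρ (L.y d) s = ρ (L.y c) s at h3
      rw [h3, hc, map_one]
      rfl
    have hDd : ∀ d, ρ (L.D d) s = s := by
      intro d
      rw [Lab.D, map_mul, map_inv, RelIso.mul_apply, hX1]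
      exact inv_fix (hX1 _)
    have hMd : ∀ d, ρ (L.M d) s = s := by
      intro d
      rw [Lab.M, map_mul, map_inv, RelIso.mul_apply, hY1]
      exact inv_fix (hY1 _)
    obtain ⟨y, hy, rfl⟩ := hg
    rcases hy with (⟨d, rfl⟩ | ⟨d, rfl⟩) | hy
    · exact hX1 d
    · exact hY1 d
    · obtain ⟨d, hd⟩ := Set.mem_iUnion.mp hy
      obtain ⟨hd1, hd2⟩ := Set.mem_iUnion.mp hd
      exact (hF d hd1).fix s (hMd d) (hDd d) _ ⟨y, hd2, rfl⟩
  · intro a b c d ha hb' hc' hd s h1 h2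
    apply both
    rcases lt_trichotomy (p s) s with h3 | h3 | h3
    · exact absurd h1 (not_le.mpr (wdn a b s (by omega) h3))
    · exact h3
    · exact absurd h2 (not_le.mpr (wup c d s (by omega) h3))
  · intro a b hab h1 s
    apply both
    have h2 : (p ^ a * q ^ b) s = s := by
      rw [h1]
      rfl
    rcases lt_trichotomy (p s) s with h3 | h3 | h3
    · exact absurd h2 (wdn a b s hab h3).ne
    · exact h3
    · exact absurd h2 (wup a b s hab h3).ne'

end Lab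

/-- What a filling means for the action. -/
theorem spec_of_fill {Ω : Type*} [CompleteLinearOrder Ω] {G : Type*} [Group G]
    (ρ : G →* (Ω ≃o Ω)) {s : Bool} {k : ℕ} {m a : G} {S : Set G} (h : Fill s k m a S) :
    FillSpec s (some (k : ℤ)) none (ρ m) (ρ a) (ρ '' S) := by
  induction h with
  | solid s k m a d c hd hk hs h =>
    rw [Set.image_empty]
    refine solid_spec (d := d) (c := c) (by exact_mod_cast hd) ?_ ?_ ?_
    · intro k' hk'
      obtain rfl := Option.some_injective _ hk'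
      refine ⟨by exact_mod_cast hk, fun h1 h2 => hs h1 (by exact_mod_cast h2)⟩
    · intro k' hk'
      exact absurd hk' (by simp)
    · rw [zpow_natCast, zpow_natCast, ← map_pow, ← map_pow, h]
  | glue s k m a Γ L δ hl hb P F hP hF P₁ Q₁ P₂ Q₂ hP₂ hQ₂ hdet h1 h2 hm ha ih =>
    have hps := lab_spec L ρ hl hb hP (fun d hd => ih d hd)
    have := PieceSpec.glue (strict := s) (lo := some (k : ℤ)) (hi := none) hps (P₁ := P₁) (Q₁ := Q₁)
      (P₂ := P₂) (Q₂ := Q₂) (by exact_mod_cast hP₂) (by exact_mod_cast hQ₂)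
      (by exact_mod_cast hdet) (by
        intro k' hk'
        obtain rfl := Option.some_injective _ hk'
        exact ⟨by exact_mod_cast h1, by exact_mod_cast h2⟩) (by
        intro k' hk'
        exact absurd hk' (by simp))
    rw [hm, ha, map_mul, map_mul, map_pow, map_pow, map_pow, map_pow]
    simpa only [zpow_natCast] using this

end Pool.Agent.Helper42.Th
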