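import Mathlib
import Pool.Agent.Helper42.Th.Core
import Pool.Agent.Helper42.Th.Piece

/-!
Paths in labelled graphs with one negative edge.
-/

set_option autoImplicit false

namespace Pool.Agent.Helper42.Th

open Pool.Agent.Helper31.OrderAct
open Pool.Agent.Helper71.Rot
open Pool.Agent.Helper71.Tree

variable {E : Type} {Ω : Type*} [CompleteLinearOrder Ω] {G : Type*} [Group G]

section Walks

variable {Γ : CMap E} {δ : E} (L : Lab G Γ) (ρ : G →* (Ω ≃o Ω)) {a b : Ω ≃o Ω} {k : ℕ}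

lemma map_M (d : E) : ρ (L.M d) = Sys.N Γ (ly L ρ) d := by
  rw [Lab.M, map_mul, map_inv]
  rfl

/-- An edge the slope of which is at least `1 / ℓ`. -/
lemma within_le {d : E} {ℓ : ℕ} (h : L.Within d ℓ) {z : Ω} (hz : z ≤ ρ (L.D d) z) :
    ρ (L.D d) z ≤ (Sys.N Γ (ly L ρ) d ^ ℓ) z := by
  obtain ⟨S, hS⟩ := h
  have h1 : FillSpec false (some 0) none (ρ (L.M d ^ ℓ * (L.D d)⁻¹)) (ρ (L.D d)) (ρ '' S) :=
    spec_of_fill ρ hS
  have hc : Commute (L.M d) (L.D d) := comm_MD L d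
  have h2 := (h1.bd (by
    rw [← map_mul, ← map_mul]
    congr 1
    exact ((hc.pow_left ℓ).mul_left (Commute.refl _).inv_left).eq)).lower 0 rfl
  rw [neg_zero, zpow_zero, one_mul] at h2
  have h3 := (ρ (L.D d)).monotone (h2.up z hz).1
  refine h3.trans (le_of_eq ?_)
  rw [← RelIso.mul_apply, ← map_mul, ← map_M, ← map_pow]
  congr 2
  rw [← mul_assoc, ← (hc.pow_left ℓ).eq, mul_assoc, mul_inv_cancel, mul_one]

variable [Finite E] (S : Sys Γ δ (lx L ρ) (ly L ρ) a b k)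
include S

lemma pass_le {d : E} {ℓ : ℕ} (h : L.Within d ℓ) {z : Ω} (hz : z ≤ a z) :
    lx L ρ d z ≤ lx L ρ (Γ.flip d) ((b ^ ℓ) z) := by
  rw [← X_D L ρ d z]
  apply (lx L ρ (Γ.flip d)).monotone
  rcases le_total z (ρ (L.D d) z) with h1 | h1
  · exact (within_le L ρ h h1).trans (S.Npow_le hz d ℓ)
  · exact h1.trans (by simpa using S.bpow_mono hz (Nat.zero_le ℓ))

lemma walk_le {d e : E} {n : ℕ} (h : L.Walk δ d e n) :
    ∀ z, z ≤ a z → lx L ρ d z ≤ lx L ρ e ((b ^ n) z) := by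
  induction h with
  | refl d => intro z _; simp
  | rot d e n _ ih =>
    intro z hz
    refine le_trans (le_of_eq ?_) (ih z hz)
    exact ((S.harm z).f_rot d).symm
  | pass d e n ℓ _ _ hℓ _ ih =>
    intro z hz
    refine (pass_le L ρ S hℓ hz).trans ?_
    rw [pow_add, RelIso.mul_apply]
    exact ih _ (S.reg_bpow hz ℓ)

/-- The first edge of a walk. -/
lemma first_edge {i o : ℕ} (hi : 0 < i) (hne : ∀ m, 0 < m → m ≤ i → (Γ.rot ^ m) δ ≠ δ)
    (w1 : L.Within ((Γ.rot ^ i) δ) (o + 1)) {z : Ω} (hz : z ≤ a z) :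
    lx L ρ δ z ≤ lx L ρ (Γ.flip ((Γ.rot ^ i) δ))
      ((b ^ o) (Sys.N Γ (ly L ρ) ((Γ.rot ^ i) δ) z)) := by
  set d := (Γ.rot ^ i) δ with hd
  have g1 := S.first_ge hz hi hne
  rw [← hd] at g1
  have r1 := S.reg_of hz g1 (S.N_le_b hz d)
  rw [← S.X_rot z δ i, ← hd, ← X_D L ρ d z]
  apply (lx L ρ (Γ.flip d)).monotone
  rcases le_total z (ρ (L.D d) z) with g | g
  · refine (within_le L ρ w1 g).trans ?_
    rw [pow_succ, RelIso.mul_apply]
    exact S.Npow_le r1 d o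
  · refine g.trans (g1.trans ?_)
    simpa using S.bpow_mono r1 (Nat.zero_le o)

/-- A path from the start of `δ` to its end. -/
lemma path_le {i j N : ℕ} (hi : 0 < i) (hj : 0 < j)
    (hne : ∀ m, 0 < m → m ≤ i → (Γ.rot ^ m) δ ≠ δ)
    (hne' : ∀ m, 0 < m → m ≤ j → (Γ.rot ^ m) (Γ.flip δ) ≠ Γ.flip δ)
    (h : L.Path δ ((Γ.rot ^ i) δ) (Γ.flip ((Γ.rot ^ j) (Γ.flip δ))) (N + 2))
    {z : Ω} (hz : z ≤ a z) :
    a z ≤ Sys.N Γ (ly L ρ) (Γ.flip ((Γ.rot ^ j) (Γ.flip δ)))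
      ((b ^ N) (Sys.N Γ (ly L ρ) ((Γ.rot ^ i) δ) z)) := by
  obtain ⟨-, -, -, -, ℓ, n, ℓ', h1, h2, h3, w1, w2, hw⟩ := h
  obtain ⟨o, rfl⟩ : ∃ o, ℓ = o + 1 := ⟨ℓ - 1, by omega⟩
  obtain ⟨o', rfl⟩ : ∃ o, ℓ' = o + 1 := ⟨ℓ' - 1, by omega⟩
  set d := (Γ.rot ^ i) δ with hd
  set e := Γ.flip ((Γ.rot ^ j) (Γ.flip δ)) with he
  have g1 := S.first_ge hz hi hne
  rw [← hd] at g1
  set z1 := Sys.N Γ (ly L ρ) d z with hz1
  have r1 : z1 ≤ a z1 := S.reg_of hz g1 (S.N_le_b hz d)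
  -- the first edge
  have s1 : lx L ρ δ z ≤ lx L ρ (Γ.flip d) ((b ^ o) z1) := first_edge L ρ S hi hne w1 hz
  -- the walk
  have s2 := walk_le L ρ S hw _ (S.reg_bpow r1 o)
  rw [show (b ^ n) ((b ^ o) z1) = (b ^ (n + o)) z1 by rw [pow_add, RelIso.mul_apply]] at s2
  have r2 := S.reg_bpow r1 (n + o)
  set z2 := (b ^ (n + o)) z1 with hz2
  -- the last edge
  have s3 : lx L ρ e z2 ≤ lx L ρ (Γ.flip δ) (Sys.N Γ (ly L ρ) e ((b ^ o') z2)) := by
    rw [← X_D L ρ e z2]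
    have e1 : ∀ w, lx L ρ (Γ.flip e) w = lx L ρ (Γ.flip δ) w := by
      intro w
      rw [he, Γ.flip_flip, S.X_rot]
    rw [e1]
    apply (lx L ρ (Γ.flip δ)).monotone
    rcases le_total z2 (ρ (L.D e) z2) with g | g
    · refine (within_le L ρ w2 g).trans ?_
      rw [pow_succ', RelIso.mul_apply]
      exact (Sys.N Γ (ly L ρ) e).monotone (S.Npow_le r2 e o')
    · refine g.trans ?_
      have g3 := S.last_ge (S.reg_bpow r2 o') hj hne'
      rw [← he] at g3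
      refine le_trans ?_ g3
      simpa using S.bpow_mono r2 (Nat.zero_le o')
  have s4 := s1.trans (s2.trans s3)
  rw [← S.ha z] at s4
  refine ((lx L ρ (Γ.flip δ)).le_iff_le.mp s4).trans ?_
  apply (Sys.N Γ (ly L ρ) e).monotone
  rw [hz2, ← RelIso.mul_apply, ← pow_add]
  exact S.bpow_mono r1 (by omega)

/-- Two paths of length at most `k + 1`. -/
theorem two_paths {i j : ℕ} (h : L.TwoPaths δ (k + 1) i j) {z : Ω} (hz : z ≤ a z) :
    a z = (b ^ k) z ∧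
      Sys.N Γ (ly L ρ) ((Γ.rot ^ i) δ) (Sys.N Γ (ly L ρ) ((Γ.rot ^ j) δ) z) = b z := by
  obtain ⟨hi, hij, hne, i', j', hj', hij', hne', p, q⟩ := h
  obtain ⟨N, rfl⟩ : ∃ N, k = N + 1 := ⟨k - 1, by have := S.kpos; omega⟩
  have hnei : ∀ m, 0 < m → m ≤ i → (Γ.rot ^ m) δ ≠ δ := fun m h1 h2 => hne m h1 (by omega)
  have hnej : ∀ m, 0 < m → m ≤ j' → (Γ.rot ^ m) (Γ.flip δ) ≠ Γ.flip δ :=
    fun m h1 h2 => hne' m h1 (by omega)
  have P := fun {z : Ω} (hz : z ≤ a z) =>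
    path_le L ρ S hi (hj'.trans hij') hnei hne' p hz
  have Q := fun {z : Ω} (hz : z ≤ a z) =>
    path_le L ρ S (hi.trans hij) hj' hne hnej q hz
  have F := fun {z : Ω} (hz : z ≤ a z) => S.first_two hz hi hij hne
  have T := fun {z : Ω} (hz : z ≤ a z) => S.last_two hz hj' hij' hne'
  set U := Sys.N Γ (ly L ρ) ((Γ.rot ^ j) δ) with hU
  set U' := Sys.N Γ (ly L ρ) ((Γ.rot ^ i) δ) with hU'
  set V := Sys.N Γ (ly L ρ) (Γ.flip ((Γ.rot ^ j') (Γ.flip δ))) with hV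
  set V' := Sys.N Γ (ly L ρ) (Γ.flip ((Γ.rot ^ i') (Γ.flip δ))) with hV'
  have g1 : z ≤ U z := S.first_ge hz (hi.trans hij) hne
  have g2 : U z ≤ b z := S.N_le_b hz _
  have rU : U z ≤ a (U z) := S.reg_of hz g1 g2
  have low : ∀ w, w ≤ a w → (b ^ (N + 1)) w ≤ a w := fun w hw => S.up w (S.b_ge hw)
  -- the chain of inequalities
  have c1 : (b ^ (N + 1)) z ≤ a z := low z hz
  have c2 : a z ≤ V ((b ^ N) (U z)) := Q hz
  have c3 : V' (V ((b ^ N) (U z))) ≤ (b ^ (N + 1)) (U z) := by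
    rw [pow_succ', RelIso.mul_apply]
    exact T (S.reg_bpow rU N)
  have c4 : (b ^ (N + 1)) (U z) ≤ a (U z) := low _ rU
  have c5 : a (U z) ≤ V' ((b ^ N) (U' (U z))) := P rU
  have c6 : V' ((b ^ N) (U' (U z))) ≤ V' ((b ^ (N + 1)) z) := by
    apply V'.monotone
    rw [pow_succ, RelIso.mul_apply]
    exact (b ^ N).monotone (F hz)
  have c7 : V' ((b ^ (N + 1)) z) ≤ V' (a z) := V'.monotone c1
  have c8 : V' (a z) ≤ V' (V ((b ^ N) (U z))) := V'.monotone c2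
  have total : V' (V ((b ^ N) (U z))) ≤ V' ((b ^ (N + 1)) z) := c3.trans (c4.trans (c5.trans c6))
  constructor
  · refine le_antisymm ?_ c1
    exact V'.le_iff_le.mp (c8.trans total)
  · refine le_antisymm (F hz) ?_
    have h1 : V' ((b ^ (N + 1)) z) ≤ V' ((b ^ N) (U' (U z))) :=
      c7.trans (c8.trans (c3.trans (c4.trans c5)))
    have h2 := V'.le_iff_le.mp h1
    rw [pow_succ, RelIso.mul_apply] at h2
    exact (b ^ N).le_iff_le.mp h2

/-- The labels of the vertices which can be reached without the start of `δ`. -/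
lemma away_eq {d e : E} (h : Γ.Away δ d e) {z : Ω} (hz : z ≤ a z) :
    lx L ρ d z = lx L ρ δ z →
      lx L ρ e z = lx L ρ δ z ∨ lx L ρ (Γ.flip δ) z = lx L ρ δ z := by
  induction h with
  | refl d => intro h; exact Or.inl h
  | rot d e _ ih =>
    intro h
    apply ih
    rw [← h]
    exact (S.harm z).f_rot d
  | pass d e hd _ ih =>
    intro h
    by_cases hend : lx L ρ (Γ.flip δ) z = lx L ρ δ z
    · exact Or.inr hend
    · apply ih
      have hsp := (S.harm z).spread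
        {c | lx L ρ c z = lx L ρ δ z ∧ ∀ m : ℕ, (Γ.rot ^ m) δ ≠ c} ?_ ?_ ?_ d ⟨h, hd⟩
      · exact hsp.trans h
      · intro c
        constructor
        · rintro ⟨h1, h2⟩
          refine ⟨((S.harm z).f_rot c).symm.trans h1, fun m hm => h2 (m + 1) ?_⟩
          rw [pow_succ', Equiv.Perm.mul_apply, hm]
        · rintro ⟨h1, h2⟩
          refine ⟨((S.harm z).f_rot c).trans h1, fun m hm => ?_⟩
          rcases Nat.eq_zero_or_pos m with rfl | hpos
          · have h3 : 0 < orderOf Γ.rot := orderOf_pos _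
            apply h2 (orderOf Γ.rot - 1)
            apply Γ.rot.injective
            rw [← hm, ← Equiv.Perm.mul_apply, ← pow_succ',
              show orderOf Γ.rot - 1 + 1 = orderOf Γ.rot by omega, pow_orderOf_eq_one]
            rfl
          · apply h2 (m - 1)
            apply Γ.rot.injective
            rw [← hm, ← Equiv.Perm.mul_apply, ← pow_succ', show m - 1 + 1 = m by omega]
      · rintro c ⟨h1, h2⟩
        constructor
        · rintro rfl
          exact h2 0 rfl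
        · rintro rfl
          exact hend h1
      · rintro c ⟨h1, -⟩
        change lx L ρ (Γ.flip c) z ≤ lx L ρ c z
        rw [h1]
        exact (S.ext hz _).2.1

/-- A third edge which fixes a point. -/
theorem third_fix {m : ℕ} (hne : (Γ.rot ^ m) δ ≠ δ)
    (haw : Γ.Away δ (Γ.flip ((Γ.rot ^ m) δ)) (Γ.flip δ)) {z w : Ω} (hz : z ≤ a z)
    (hw1 : z ≤ w) (hw2 : w ≤ b z) (hw3 : Sys.N Γ (ly L ρ) ((Γ.rot ^ m) δ) w = w) : a z = z := by
  have rw' : w ≤ a w := S.reg_of hz hw1 hw2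
  -- the edge of the third dart is constant at `w`
  have h2 : lx L ρ (Γ.flip ((Γ.rot ^ m) δ)) w = lx L ρ δ w ∨
      lx L ρ (Γ.flip δ) w = lx L ρ δ w := by
    by_cases h5 : (Γ.rot ^ m) δ = Γ.flip δ
    · right
      rw [← h5]
      exact S.X_rot w δ m
    · left
      have h3 := (S.harm w).str _ hne h5 (by
        rw [← Sys.Y_N (Γ := Γ) ((Γ.rot ^ m) δ) w, hw3])
      exact h3.trans (S.X_rot w δ m)
  have h4 : lx L ρ (Γ.flip δ) w = lx L ρ δ w := by
    rcases h2 with h2 | h2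
    · rcases away_eq L ρ S haw rw' h2 with h | h <;> exact h
    · exact h2
  have h5 : a w = w := by
    apply (lx L ρ (Γ.flip δ)).injective
    rw [S.ha, h4]
  -- `z ≤ w ≤ b z ≤ a z`
  have h6 : a z ≤ w := by
    rw [← h5]
    exact a.monotone hw1
  have h7 : w = a z := le_antisymm (hw2.trans (S.b_le_a hz)) h6
  have h8 : a (a z) = a z := by rw [← h7, h5]
  exact a.injective h8

/-- One path of length at most `k`. -/
theorem one_path {i : ℕ} (h : L.OnePath δ k i) {z : Ω} (hz : z ≤ a z) :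
    a z = (b ^ k) z ∧ Sys.N Γ (ly L ρ) ((Γ.rot ^ i) δ) z = b z := by
  obtain ⟨hi, hne, -, ℓ, n, h1, h2, hℓ, hw⟩ := h
  obtain ⟨o, rfl⟩ : ∃ o, ℓ = o + 1 := ⟨ℓ - 1, by omega⟩
  obtain ⟨N, rfl⟩ : ∃ N, k = N + 1 := ⟨k - 1, by have := S.kpos; omega⟩
  have g1 := S.first_ge hz hi hne
  have g2 := S.N_le_b hz ((Γ.rot ^ i) δ)
  have s1 := first_edge L ρ S hi hne hℓ hz
  set z1 := Sys.N Γ (ly L ρ) ((Γ.rot ^ i) δ) z with hz1
  have r1 : z1 ≤ a z1 := S.reg_of hz g1 g2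
  have s2 := walk_le L ρ S hw _ (S.reg_bpow r1 o)
  rw [show (b ^ n) ((b ^ o) z1) = (b ^ (n + o)) z1 by rw [pow_add, RelIso.mul_apply]] at s2
  have s3 := s1.trans s2
  rw [← S.ha z] at s3
  have s4 : a z ≤ (b ^ N) z1 :=
    ((lx L ρ (Γ.flip δ)).le_iff_le.mp s3).trans (S.bpow_mono r1 (by omega))
  have s5 : (b ^ (N + 1)) z ≤ a z := S.up z (S.b_ge hz)
  have s6 : (b ^ N) z1 ≤ (b ^ (N + 1)) z := by
    rw [pow_succ, RelIso.mul_apply]
    exact (b ^ N).monotone g2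
  refine ⟨le_antisymm (s4.trans s6) s5, le_antisymm g2 ?_⟩
  have s7 := s5.trans s4
  rw [pow_succ, RelIso.mul_apply] at s7
  exact (b ^ N).le_iff_le.mp s7

/-- Short paths. -/
theorem short {I : Set ℕ} (h : L.Short δ k I) {z : Ω} (hz : z ≤ a z) : a z = (b ^ k) z := by
  rcases h with ⟨i, -, h⟩ | ⟨i, j, -, h⟩
  · exact (one_path L ρ S h hz).1
  · exact (two_paths L ρ S h hz).1

/-- Short paths and another edge. -/
theorem short_third {I : Set ℕ} (h : L.Short δ k I) (ht : Γ.Third δ I) {z : Ω} (hz : z ≤ a z) :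
    a z = z := by
  obtain ⟨m, hm, hmI, hne, haw⟩ := ht
  rcases h with ⟨i, rfl, h⟩ | ⟨i, j, rfl, h⟩
  · have h1 := (one_path L ρ S h hz).2
    obtain ⟨hi, hne1, -⟩ := h
    obtain ⟨w, hw1, hw2, hw3⟩ := S.second hz hi hm (fun h => hmI h)
      (fun l hl hl' => hl'.elim (hne1 l hl) (hne l hl)) h1
    exact third_fix L ρ S (hne m hm le_rfl) haw hz hw1 hw2 hw3
  · have h1 := (two_paths L ρ S h hz).2
    obtain ⟨hi, hij, hne1, -⟩ := h
    obtain ⟨w, hw1, hw2, hw3⟩ := S.third hz hi hij hm (fun h => hmI (Or.inl h))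
      (fun h => hmI (Or.inr h)) (fun l hl hl' => hl'.elim (hne1 l hl) (hne l hl)) h1
    exact third_fix L ρ S (hne m hm le_rfl) haw hz hw1 hw2 hw3

end Walks

end Pool.Agent.Helper42.Th
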